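import Mathlib
import Pool.Agent.Lib.H84J.G1

/-!
# Borel edge colourings of Schreier graphs: generators of odd order and of infinite order
-/

set_option autoImplicit false

namespace Pool.Agent.Results.MP_110ff7_lc.InversePairs

/-- For a free Borel action of a group on a standard Borel space and a finite nonempty symmetric
set `S` of group elements with `I` elements of infinite order and `O` elements of odd order
different from one, the Schreier graph has a Borel proper edge colouring with
`|S| + ⌈(I + O) / 4⌉` colours (`I + O` is even). -/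
theorem result {Γ : Type*} [Group Γ] {X : Type*} [MeasurableSpace X] [StandardBorelSpace X]
    [MulAction Γ X] (S : Finset Γ) (hne : S.Nonempty) (hsymm : ∀ s ∈ S, s⁻¹ ∈ S)
    (hmeas : ∀ γ : Γ, Measurable (fun x : X => γ • x))
    (hfree : ∀ (γ : Γ) (x : X), γ • x = x → γ = 1) :
    ∃ c : X × X → Fin (S.card + ((S.filter (fun s => orderOf s = 0)).card +
          (S.filter (fun s => Odd (orderOf s) ∧ orderOf s ≠ 1)).card + 2) / 4),
      Measurable c ∧ (∀ x y : X, c (x, y) = c (y, x)) ∧
      (∀ x y z : X, (x ≠ y ∧ ∃ s ∈ S, s • x = y) → (x ≠ z ∧ ∃ s ∈ S, s • x = z) →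
          y ≠ z → c (x, y) ≠ c (x, z)) := by
  classical
  have hS' : ∀ s ∈ S.erase 1, s⁻¹ ∈ S.erase 1 := by
    intro s hs
    rw [Finset.mem_erase] at hs ⊢
    exact ⟨fun h => hs.1 (inv_eq_one.1 h), hsymm s hs.2⟩
  have hmain := Pool.Agent.Lib.H84J.g1_main (X := X) hmeas hfree _ (S.erase 1) le_rfl hS'
    (Finset.notMem_erase 1 S)
  have hI : (S.erase 1).filter (fun s => orderOf s = 0) = S.filter (fun s => orderOf s = 0) := by
    ext s
    simp only [Finset.mem_filter, Finset.mem_erase]
    constructor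
    · exact fun h => ⟨h.1.2, h.2⟩
    · intro h
      refine ⟨⟨?_, h.1⟩, h.2⟩
      rintro rfl
      simp at h
  have hO : (S.erase 1).filter (fun s => Odd (orderOf s) ∧ orderOf s ≠ 1) =
      S.filter (fun s => Odd (orderOf s) ∧ orderOf s ≠ 1) := by
    ext s
    simp only [Finset.mem_filter, Finset.mem_erase]
    constructor
    · exact fun h => ⟨h.1.2, h.2⟩
    · intro h
      refine ⟨⟨?_, h.1⟩, h.2⟩
      rintro rfl
      simp at h
  unfold Pool.Agent.Lib.H84J.xtr at hmain
  rw [hI, hO] at hmain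
  obtain ⟨k, hk⟩ : ∃ k, S.card + ((S.filter (fun s => orderOf s = 0)).card +
          (S.filter (fun s => Odd (orderOf s) ∧ orderOf s ≠ 1)).card + 2) / 4 = k + 1 := by
    have := hne.card_pos
    exact ⟨S.card + ((S.filter (fun s => orderOf s = 0)).card +
          (S.filter (fun s => Odd (orderOf s) ∧ orderOf s ≠ 1)).card + 2) / 4 - 1, by omega⟩
  have hle : (S.erase 1).card ≤ S.card := Finset.card_le_card (Finset.erase_subset _ _)
  obtain ⟨c, hc, hc1, hc2⟩ := Pool.Agent.Lib.H84E.g_final hmeas hfree (S.erase 1) hS'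
    (k := k) (by omega) hmain
  rw [hk]
  refine ⟨c, hc, hc1, ?_⟩
  rintro x y z ⟨hxy, s, hs, h⟩ ⟨hxz, s', hs', h'⟩ hyz
  refine hc2 x y z ⟨s, Finset.mem_erase.2 ⟨?_, hs⟩, h⟩ ⟨s', Finset.mem_erase.2 ⟨?_, hs'⟩, h'⟩ hyz
  · rintro rfl
    rw [one_smul] at h
    exact hxy h
  · rintro rfl
    rw [one_smul] at h'
    exact hxz h'

end Pool.Agent.Results.MP_110ff7_lc.InversePairs
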